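import Pool.Agent.H15.SC.TargetsY

/-!
Module GEC (properties of the cone of very ample classes), project MP_f2954d_ag.
-/

namespace Pool.Agent.H37.SCX

open SC SCB

section

variable {K : Type} [Field K] [Algebra ℂ K] {N : ℕ} {w : Fin (N + 1) → K}

lemma toR_add (A B : DivZ w) : toR (A + B) = toR A + toR B := by
  ext v; simp [toR]

lemma toR_nsmul (a : ℕ) (A : DivZ w) : toR (a • A) = (a : ℝ) • toR A := by
  ext v; simp [toR]

lemma vamp_nsmul {H₀ : DivZ w}
    (hadd : ∀ D D' : DivZ w, VAmp H₀ D → VAmp H₀ D' → VAmp H₀ (D + D')) (A : DivZ w)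
    (hA : VAmp H₀ A) (a : ℕ) (ha : 1 ≤ a) : VAmp H₀ (a • A) := by
  induction a, ha using Nat.le_induction with
  | base => simpa using hA
  | succ n hn ih => rw [succ_nsmul]; exact hadd _ _ ih hA

end

/-- positive rationals as quotients of positive naturals -/
lemma rat_split (q : ℚ) (hq : 0 < q) : ∃ a b : ℕ, 1 ≤ a ∧ 1 ≤ b ∧ (q : ℝ) = (a : ℝ) / b := by
  refine ⟨q.num.toNat, q.den, ?_, q.pos, ?_⟩
  · have := Rat.num_pos.2 hq
    omega
  · have h := Rat.num_pos.2 hq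
    have h2 : ((q.num.toNat : ℤ) : ℝ) = (q.num : ℝ) := by
      rw [Int.toNat_of_nonneg h.le]
    have h3 : ((q.num.toNat : ℕ) : ℝ) = (q.num : ℝ) := by
      rw [← h2]; exact (Int.cast_natCast _).symm
    rw [h3]
    exact_mod_cast (Rat.num_div_den q).symm

/-- GEC -/
theorem gec (hSPN : T_SPN) (hXQ : T_XQ) : T_GEC := by
  intro K _ _ N n w i₀ H₀ μ hX hH
  obtain ⟨hadd, hample, -, -, -, -⟩ := hXQ K N n w hX i₀ H₀ hH
  obtain ⟨-, -, hopen⟩ := hSPN K N n w i₀ H₀ hX hH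
  have hH0 : VAmp H₀ H₀ := by
    intro i hi p hp
    refine ⟨1, ?_, one_ne_zero, ?_⟩
    · intro v; right; simp [DV.ord_one]
    · intro v _; simp [DV.ord_one]
  refine ⟨⟨_, H₀, hH0, 1, one_pos, rfl⟩, ?_, ?_, ?_⟩
  · rintro a ⟨A, hA, q, hq, rfl⟩ b ⟨B, hB, r, hr, rfl⟩
    obtain ⟨a, a', ha, ha', haq⟩ := rat_split q hq
    obtain ⟨b, b', hb, hb', hbr⟩ := rat_split r hr
    have ha0 : (a' : ℝ) ≠ 0 := by positivity
    have hb0 : (b' : ℝ) ≠ 0 := by positivity
    refine ⟨(a * b') • A + (b * a') • B, hadd _ _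
      (vamp_nsmul hadd A hA _ (Nat.mul_pos ha hb')) (vamp_nsmul hadd B hB _ (Nat.mul_pos hb ha')),
      1 / ((a' : ℚ) * b'), by positivity, ?_⟩
    rw [toR_add, toR_nsmul, toR_nsmul, map_add, map_smul, map_smul, smul_add, smul_smul,
      smul_smul, haq, hbr]
    congr 2
    · push_cast
      field_simp
    · push_cast
      field_simp
  · rintro a ⟨A, hA, q, hq, rfl⟩ r hr
    refine ⟨A, hA, r * q, mul_pos hr hq, ?_⟩
    rw [smul_smul]; push_cast; rfl
  · rintro g ⟨A, hA, q, hq, rfl⟩ x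
    obtain ⟨E, rfl⟩ := (NTsub μ).mkQ_surjective x
    have hq' : (0 : ℝ) < q := by exact_mod_cast hq
    obtain ⟨t, ht, r, G, c, hG, hsum⟩ := hopen A ((1 / (q : ℝ)) • E) (hample A hA)
    refine ⟨t, ht, r, fun i => (q : ℝ) • (NTsub μ).mkQ (G i), c, fun i => ⟨?_, (hG i).2⟩, ?_⟩
    · obtain ⟨B, hB, s, hs, hGi⟩ := (hG i).1
      refine ⟨B, hB, q * s, mul_pos hq hs, ?_⟩
      show (q : ℝ) • (NTsub μ).mkQ (G i) = _
      rw [hGi, map_smul, smul_smul]; push_cast; rfl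
    · have h1 : (q : ℝ) • (NTsub μ).mkQ (toR A) + t • (NTsub μ).mkQ E =
          (q : ℝ) • (NTsub μ).mkQ (toR A + t • (1 / (q : ℝ)) • E) := by
        rw [map_add, map_smul, map_smul, smul_add, smul_smul, smul_smul]
        congr 2
        field_simp
      rw [h1, hsum, map_sum, Finset.smul_sum]
      refine Finset.sum_congr rfl fun i _ => ?_
      rw [map_smul, smul_comm]

end Pool.Agent.H37.SCX
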